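import Pool.Agent.Helper67.DO.StmtsD

set_option autoImplicit false

namespace Pool.Agent.Helper67.DO

open scoped BigOperators Real

theorem d10_sA {j : ℕ} (a : Fin (j + 1)) (c : Fin j) :
    ((a.succAbove c : Fin (j + 1)) : ℕ) = if (c : ℕ) < (a : ℕ) then (c : ℕ) else (c : ℕ) + 1 := by
  unfold Fin.succAbove
  simp only [Fin.lt_def, Fin.val_castSucc]
  split_ifs <;> simp

theorem d10_one {j : ℕ} (a : Fin (j + 1)) (w : Fin j → ℝ) (i : ℕ) :
    lam (j + 1) i (a.insertNth 1 w) = if i < (a : ℕ) then lam j i w else if i = (a : ℕ) then 0 else lam j (i - 1) w := by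
  unfold lam
  rw [Fin.prod_univ_succAbove _ a, Fin.prod_univ_succAbove _ a]
  simp only [Fin.insertNth_apply_same, Fin.insertNth_apply_succAbove, d10_sA]
  rcases lt_trichotomy i (a : ℕ) with h | h | h
  · rw [if_pos h]
    have e1 : (if (a : ℕ) < i then (1 : ℝ) else 1) = 1 := by split_ifs <;> rfl
    have e2 : (if (a : ℕ) = i then 1 - (1 : ℝ) else 1) = 1 := if_neg (by omega)
    rw [e1, e2, one_mul, one_mul]
    congr 1
    · refine Finset.prod_congr rfl fun c _ => ?_
      have : ((if (c : ℕ) < (a : ℕ) then (c : ℕ) else (c : ℕ) + 1) < i) ↔ (c : ℕ) < i := by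
        split_ifs <;> omega
      simp only [this]
    · refine Finset.prod_congr rfl fun c _ => ?_
      have : ((if (c : ℕ) < (a : ℕ) then (c : ℕ) else (c : ℕ) + 1) = i) ↔ (c : ℕ) = i := by
        split_ifs <;> omega
      simp only [this]
  · rw [if_neg (show ¬ i < (a : ℕ) by omega), if_pos h]
    have e2 : (if (a : ℕ) = i then 1 - (1 : ℝ) else 1) = 0 := by rw [if_pos h.symm]; ring
    rw [e2]
    ring
  · rw [if_neg (show ¬ i < (a : ℕ) by omega), if_neg (show ¬ i = (a : ℕ) by omega)]
    have e1 : (if (a : ℕ) < i then (1 : ℝ) else 1) = 1 := by split_ifs <;> rfl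
    have e2 : (if (a : ℕ) = i then 1 - (1 : ℝ) else 1) = 1 := if_neg (by omega)
    rw [e1, e2, one_mul, one_mul]
    congr 1
    · refine Finset.prod_congr rfl fun c _ => ?_
      have : ((if (c : ℕ) < (a : ℕ) then (c : ℕ) else (c : ℕ) + 1) < i) ↔ (c : ℕ) < i - 1 := by
        split_ifs <;> omega
      simp only [this]
    · refine Finset.prod_congr rfl fun c _ => ?_
      have : ((if (c : ℕ) < (a : ℕ) then (c : ℕ) else (c : ℕ) + 1) = i) ↔ (c : ℕ) = i - 1 := by
        split_ifs <;> omega
      simp only [this]

theorem d10_zero {j : ℕ} (w : Fin j → ℝ) (i : ℕ) (hi : i ≤ j) :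
    lam (j + 1) i ((Fin.last j).insertNth 0 w) = lam j i w := by
  unfold lam
  rw [Fin.prod_univ_succAbove _ (Fin.last j), Fin.prod_univ_succAbove _ (Fin.last j)]
  simp only [Fin.insertNth_apply_same, Fin.insertNth_apply_succAbove, d10_sA, Fin.val_last]
  have e1 : (if j < i then (0 : ℝ) else 1) = 1 := if_neg (by omega)
  have e2 : (if j = i then 1 - (0 : ℝ) else 1) = 1 := by split_ifs <;> ring
  rw [e1, e2, one_mul, one_mul]
  congr 1
  · refine Finset.prod_congr rfl fun c _ => ?_
    have hc := c.isLt
    have : ((if (c : ℕ) < j then (c : ℕ) else (c : ℕ) + 1) < i) ↔ (c : ℕ) < i := by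
      split_ifs <;> omega
    simp only [this]
  · refine Finset.prod_congr rfl fun c _ => ?_
    have hc := c.isLt
    have : ((if (c : ℕ) < j then (c : ℕ) else (c : ℕ) + 1) = i) ↔ (c : ℕ) = i := by
      split_ifs <;> omega
    simp only [this]

theorem d10_zero' {j : ℕ} (w : Fin j → ℝ) :
    lam (j + 1) (j + 1) ((Fin.last j).insertNth 0 w) = 0 := by
  unfold lam
  rw [Fin.prod_univ_succAbove _ (Fin.last j)]
  simp

theorem d10_vanish {q : ℕ} (u : Fin q → ℝ) (a : Fin q) (ha : u a = 0) (i : ℕ) (hi : (a : ℕ) < i) :
    lam q i u = 0 := by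
  unfold lam
  rw [Finset.prod_eq_zero (Finset.mem_univ a) (by rw [if_pos hi, ha]), zero_mul]

theorem d10_indep {q : ℕ} (u : Fin q → ℝ) (c : Fin q) (i : ℕ) (hi : i < (c : ℕ)) (t : ℝ) :
    lam q i (Function.update u c t) = lam q i u := by
  unfold lam
  congr 1
  · refine Finset.prod_congr rfl fun k _ => ?_
    by_cases h : k = c
    · subst h
      rw [if_neg (by omega), if_neg (by omega)]
    · rw [Function.update_of_ne h]
  · refine Finset.prod_congr rfl fun k _ => ?_
    by_cases h : k = c
    · subst h
      rw [if_neg (by omega), if_neg (by omega)]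
    · rw [Function.update_of_ne h]

theorem d10_upd {j : ℕ} (a : Fin (j + 1)) (c : Fin j) (r t : ℝ) (w : Fin j → ℝ) :
    Function.update (a.insertNth r w : Fin (j + 1) → ℝ) (a.succAbove c) t
      = (a.insertNth r (Function.update w c t) : Fin (j + 1) → ℝ) := by
  funext k
  rcases Fin.eq_self_or_eq_succAbove a k with h | ⟨m, h⟩
  · subst h
    rw [Function.update_of_ne (Fin.succAbove_ne _ _).symm, Fin.insertNth_apply_same, Fin.insertNth_apply_same]
  · subst h
    by_cases hm : m = c
    · subst hm
      rw [Function.update_self, Fin.insertNth_apply_succAbove, Function.update_self]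
    · rw [Function.update_of_ne (fun e => hm (Fin.succAbove_right_injective e)),
        Fin.insertNth_apply_succAbove, Fin.insertNth_apply_succAbove, Function.update_of_ne hm]

theorem d10_sum {j : ℕ} (a : ℕ) (ha : a ≤ j) (f g : ℕ → ℝ) (y : ℕ → ℝ)
    (hlt : ∀ i < a, f i = g i) (heq : f a = 0) (hgt : ∀ i, a < i → f i = g (i - 1)) :
    ∑ i ∈ Finset.range (j + 1 + 1), f i * y i
      = ∑ i ∈ Finset.range (j + 1), g i * (if i < a then y i else y (i + 1)) := by
  obtain ⟨b, rfl⟩ := Nat.exists_eq_add_of_le ha
  have e1 : a + b + 1 + 1 = a + (b + 1 + 1) := by ring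
  have e2 : a + b + 1 = a + (b + 1) := by ring
  have h1 := Finset.sum_range_add (fun i => f i * y i) a (b + 1 + 1)
  have h2 := Finset.sum_range_add (fun i => g i * (if i < a then y i else y (i + 1))) a (b + 1)
  rw [e1, h1, e2, h2, Finset.sum_range_succ' _ (b + 1)]
  simp only [add_zero]
  rw [heq, zero_mul, add_zero]
  congr 1
  · refine Finset.sum_congr rfl fun i hi => ?_
    have := Finset.mem_range.1 hi
    rw [hlt i this, if_pos this]
  · refine Finset.sum_congr rfl fun i _ => ?_
    rw [hgt _ (by omega), if_neg (by omega)]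
    rfl

theorem st_D10 : ST_D10 := by
  intro j y u'
  refine ⟨?_, ?_, ?_, ?_, ?_⟩
  · intro a
    funext x
    unfold Phi
    have := d10_sum (j := j) (a : ℕ) (by omega) (fun i => lam (j + 1) i (a.insertNth 1 u'))
      (fun i => lam j i u') (fun i => y i x)
      (fun i hi => by simp only [d10_one]; rw [if_pos hi])
      (by simp only [d10_one]; simp)
      (fun i hi => by simp only [d10_one]; rw [if_neg (by omega), if_neg (by omega)])
    rw [this]
    refine Finset.sum_congr rfl fun i _ => ?_
    unfold rm
    split_ifs <;> rfl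
  · funext x
    unfold Phi
    rw [Finset.sum_range_succ _ (j + 1), d10_zero', zero_mul, add_zero]
    refine Finset.sum_congr rfl fun i hi => ?_
    have := Finset.mem_range.1 hi
    rw [d10_zero _ _ (by omega)]
    unfold rm
    rw [if_pos this]
  · intro a c hac
    funext x
    unfold dPhi
    refine Finset.sum_eq_zero fun i _ => ?_
    have : dlam (j + 1) i c (a.insertNth 0 u') = 0 := by
      unfold dlam
      rcases lt_or_ge i (c : ℕ) with h | h
      · simp only [d10_indep _ _ _ h]
        exact deriv_const _ _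
      · have : (fun t => lam (j + 1) i (Function.update (a.insertNth 0 u' : Fin (j + 1) → ℝ) c t)) = fun _ => 0 := by
          funext t
          apply d10_vanish _ a
          · rw [Function.update_of_ne hac.ne, Fin.insertNth_apply_same]
          · exact lt_of_lt_of_le hac h
        rw [this]
        exact deriv_const _ _
    rw [this, zero_mul]
  · intro a c
    funext x
    unfold dPhi
    have key : ∀ i, dlam (j + 1) i (a.succAbove c) (a.insertNth 1 u')
        = if i < (a : ℕ) then dlam j i c u' else if i = (a : ℕ) then 0 else dlam j (i - 1) c u' := by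
      intro i
      unfold dlam
      simp only [d10_upd, d10_one, Fin.insertNth_apply_succAbove]
      split_ifs
      · rfl
      · exact deriv_const _ _
      · rfl
    have := d10_sum (j := j) (a : ℕ) (by omega) (fun i => dlam (j + 1) i (a.succAbove c) (a.insertNth 1 u'))
      (fun i => dlam j i c u') (fun i => y i x)
      (fun i hi => by simp only [key]; rw [if_pos hi])
      (by simp only [key]; simp)
      (fun i hi => by simp only [key]; rw [if_neg (by omega), if_neg (by omega)])
    rw [this]
    refine Finset.sum_congr rfl fun i _ => ?_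
    unfold rm
    split_ifs <;> rfl
  · intro c
    funext x
    unfold dPhi
    have k1 : dlam (j + 1) (j + 1) ((Fin.last j).succAbove c) ((Fin.last j).insertNth 0 u') = 0 := by
      unfold dlam
      simp only [d10_upd, d10_zero']
      exact deriv_const _ _
    rw [Finset.sum_range_succ _ (j + 1), k1, zero_mul, add_zero]
    refine Finset.sum_congr rfl fun i hi => ?_
    have := Finset.mem_range.1 hi
    have k2 : dlam (j + 1) i ((Fin.last j).succAbove c) ((Fin.last j).insertNth 0 u') = dlam j i c u' := by
      unfold dlam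
      simp only [d10_upd, Fin.insertNth_apply_succAbove]
      simp only [d10_zero _ i (by omega : i ≤ j)]
    rw [k2]
    unfold rm
    rw [if_pos this]

end Pool.Agent.Helper67.DO
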