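import Pool.Agent.Helper67.DO.BaseD2

set_option autoImplicit false

namespace Pool.Agent.Helper67.DO

open scoped BigOperators Real Topology
open MeasureTheory

theorem d17_mem {s : ℝ} (hs : 0 < s) (x : ℝ) : (x : ℂ) ∈ St s := by
  show |((x : ℂ)).im| < s
  simpa using hs

theorem d17_diffAt {s : ℝ} (hs : 0 < s) {H : ℂ → ℂ} (hH : DifferentiableOn ℂ H (St s)) (x : ℝ) :
    DifferentiableAt ℂ H (x : ℂ) :=
  (hH _ (d17_mem hs x)).differentiableAt ((isOpen_St s).mem_nhds (d17_mem hs x))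

theorem d17_chain {s : ℝ} (hs : 0 < s) {H : ℂ → ℂ} (hH : DifferentiableOn ℂ H (St s)) {Φ h : ℝ → ℝ}
    (hΦ : IsLift Φ) (hh : ∀ t : ℝ, H (Φ t : ℂ) = (h t : ℂ)) (t : ℝ) :
    deriv H (Φ t : ℂ) = ((deriv h t / deriv Φ t : ℝ) : ℂ) := by
  have h1 : HasDerivAt (fun y : ℝ => H (y : ℂ)) (deriv H (Φ t : ℂ)) (Φ t) :=
    ((d17_diffAt hs hH (Φ t)).hasDerivAt).comp_ofReal
  have h2 : HasDerivAt (fun t : ℝ => H (Φ t : ℂ)) (deriv Φ t • deriv H (Φ t : ℂ)) t :=
    h1.scomp t (hΦ.diff t).hasDerivAt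
  have h3 : HasDerivAt (fun t : ℝ => (H (Φ t : ℂ)).re) ((deriv Φ t • deriv H (Φ t : ℂ)).re) t :=
    Complex.reCLM.hasFDerivAt.comp_hasDerivAt t h2
  have h4 : (fun t : ℝ => (H (Φ t : ℂ)).re) = h := by
    funext t
    rw [hh, Complex.ofReal_re]
  rw [h4] at h3
  have h5 := h3.ofReal_comp
  have h6 : (fun t : ℝ => H (Φ t : ℂ)) = fun t => (h t : ℂ) := funext hh
  rw [h6] at h2
  have h7 := h5.unique h2
  have h8 := hΦ.pos t
  have h9 : ((deriv Φ t : ℝ) : ℂ) ≠ 0 := by exact_mod_cast h8.ne'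
  rw [← h3.deriv] at h7
  rw [Complex.ofReal_div, h7, Complex.real_smul]
  field_simp

theorem d17_per {s : ℝ} {H : ℂ → ℂ} (hp : ∀ z ∈ St s, H (z + 1) = H z) :
    ∀ z ∈ St s, deriv H (z + 1) = deriv H z := by
  intro z hz
  have h1 : (fun w => H (w + 1)) =ᶠ[𝓝 z] H := by
    filter_upwards [(isOpen_St s).mem_nhds hz] with w hw
    exact hp w hw
  rw [← h1.deriv_eq, deriv_comp_add_const]

theorem d17_int {s : ℝ} (hs : 0 < s) {F : ℂ → ℂ} (hF : DifferentiableOn ℂ F (St s))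
    (hp : ∀ z ∈ St s, F (z + 1) = F z) {Φ : ℝ → ℝ} (hΦ : IsLift Φ) :
    ∫ x in (0 : ℝ)..1, F x = ∫ t in (0 : ℝ)..1, deriv Φ t • F (Φ t : ℂ) := by
  have hc : Continuous fun x : ℝ => F (x : ℂ) := by
    rw [continuous_iff_continuousAt]
    intro x
    exact (d17_diffAt hs hF x).continuousAt.comp Complex.continuous_ofReal.continuousAt
  have hd : Continuous (deriv Φ) := by
    rw [continuous_iff_continuousAt]
    intro x
    exact (hΦ.an x).deriv.continuousAt
  have h1 := intervalIntegral.integral_deriv_smul_comp (a := 0) (b := 1) (f := Φ) (f' := deriv Φ)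
    (g := fun x : ℝ => F (x : ℂ)) (fun x _ => (hΦ.diff x).hasDerivAt) hd.continuousOn hc
  have h2 : Function.Periodic (fun x : ℝ => F (x : ℂ)) 1 := by
    intro x
    show F ((x + 1 : ℝ) : ℂ) = F x
    have := hp x (d17_mem hs x)
    rw [← this]
    push_cast
    rfl
  have h3 := h2.intervalIntegral_add_eq 0 (Φ 0)
  have h4 : Φ 1 = Φ 0 + 1 := by
    have := hΦ.per 0
    rw [zero_add] at this
    exact this
  rw [zero_add] at h3
  rw [h3, ← h4, ← h1]
  rfl

/-- change of variables -/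
theorem st_D17 : ST_D17 := by
  intro n ρ s M K hI Φ hΦ v hv w hw
  have hs := hI.pos.1
  obtain ⟨v1, v2, -⟩ := pull_prop hI hΦ hv
  obtain ⟨w1, w2, -⟩ := pull_prop hI hΦ hw
  have hL := hΦ.1
  have vv : ∀ (v : ℝ → ℝ), v ∈ VV n K → ∀ t : ℝ, pull ρ Φ v (Φ t : ℂ) = (v t : ℂ) := by
    intro v hv t
    unfold pull
    rw [hI.invreal Φ hΦ, hI.vreal K v hv]
  have hv' := vv v hv
  have hw' := vv w hw
  have dv := d17_chain hs v1 hL hv'
  have dw := d17_chain hs w1 hL hw'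
  have w3 : DifferentiableOn ℂ (deriv (pull ρ Φ w)) (St s) := w1.deriv (isOpen_St s)
  have v3 : DifferentiableOn ℂ (deriv (pull ρ Φ v)) (St s) := v1.deriv (isOpen_St s)
  have w4 : DifferentiableOn ℂ (deriv (deriv (pull ρ Φ w))) (St s) := w3.deriv (isOpen_St s)
  have ddw := d17_chain hs w3 hL dw
  have pv := d17_per v2
  have pw := d17_per w2
  have pww := d17_per pw
  constructor
  · rw [d17_int hs (F := fun z => pull ρ Φ v z * deriv (pull ρ Φ w) z) (v1.mul w3)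
      (fun z hz => by show _ * _ = _ * _; rw [v2 z hz, pw z hz]) hL, ← intervalIntegral.integral_ofReal]
    refine intervalIntegral.integral_congr fun t _ => ?_
    show deriv Φ t • (pull ρ Φ v (Φ t : ℂ) * deriv (pull ρ Φ w) (Φ t : ℂ)) = ((v t * deriv w t : ℝ) : ℂ)
    rw [hv', dw]
    have h8 := (hL.pos t).ne'
    rw [Complex.real_smul]
    norm_cast
    field_simp
  · have e2 : iteratedDeriv 2 (pull ρ Φ w) = deriv (deriv (pull ρ Φ w)) := by
      rw [iteratedDeriv_succ, iteratedDeriv_one]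
    rw [e2]
    rw [d17_int hs (F := fun z => deriv (pull ρ Φ v) z * deriv (deriv (pull ρ Φ w)) z) (v3.mul w4)
      (fun z hz => by show _ * _ = _ * _; rw [pv z hz, pww z hz]) hL, ← intervalIntegral.integral_ofReal]
    refine intervalIntegral.integral_congr fun t _ => ?_
    show deriv Φ t • (deriv (pull ρ Φ v) (Φ t : ℂ) * deriv (deriv (pull ρ Φ w)) (Φ t : ℂ))
      = ((deriv v t / deriv Φ t * deriv (fun t => deriv w t / deriv Φ t) t : ℝ) : ℂ)
    rw [dv, ddw]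
    have h8 := (hL.pos t).ne'
    rw [Complex.real_smul]
    norm_cast
    field_simp

end Pool.Agent.Helper67.DO
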