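import Pool.Agent.Helper67.DO.BaseD

set_option autoImplicit false

namespace Pool.Agent.Helper67.DO

open scoped BigOperators Real Topology
open MeasureTheory

theorem e9_St {s : ℝ} (t : ℝ) {z : ℂ} (hz : z ∈ St s) : z + (t : ℂ) ∈ St s := by
  show |(z + (t : ℂ)).im| < s
  have : (z + (t : ℂ)).im = z.im := by simp
  rw [this]
  exact hz

theorem e9_real {s : ℝ} (hs : 0 < s) (x : ℝ) : (x : ℂ) ∈ St s := by
  show |((x : ℂ)).im| < s
  simpa using hs

theorem e9_ins {q : ℕ} (i : Fin (q + 1)) (a t : ℂ) (v : Fin q → ℂ) :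
    (fun k => (i.insertNth a v : Fin (q + 1) → ℂ) k + t) = i.insertNth (a + t) (fun k => v k + t) := by
  funext k
  rcases Fin.eq_self_or_eq_succAbove i k with h | ⟨m, h⟩
  · subst h
    simp only [Fin.insertNth_apply_same]
  · subst h
    simp only [Fin.insertNth_apply_succAbove]

theorem e9_cons {q : ℕ} (a t : ℂ) (v : Fin q → ℂ) :
    (fun k => (Fin.cons a v : Fin (q + 1) → ℂ) k + t) = Fin.cons (a + t) (fun k => v k + t) := by
  funext k
  refine Fin.cases ?_ (fun m => ?_) k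
  · simp only [Fin.cons_zero]
  · simp only [Fin.cons_succ]

theorem e9_cons_mem {q : ℕ} {U : Set ℂ} {a : ℂ} {v : Fin q → ℂ} (ha : a ∈ U) (hv : v ∈ PU q U) :
    (Fin.cons a v : Fin (q + 1) → ℂ) ∈ PU (q + 1) U := by
  intro k
  refine Fin.cases ?_ (fun m => ?_) k
  · simpa only [Fin.cons_zero] using ha
  · simpa only [Fin.cons_succ] using hv m

theorem e9_per1 {q : ℕ} {s : ℝ} {F : (Fin (q + 1) → ℂ) → ℂ} (hF : BO (q + 1) (St s) F) {a : ℂ} {v : Fin q → ℂ}
    (ha : a ∈ St s) (hv : v ∈ PU q (St s)) :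
    F (Fin.cons (a + 1) v) = F (Fin.cons a v) := by
  have h := hF.per (Fin.cons a v) (e9_cons_mem ha hv) 0
  rw [Fin.cons_zero, Fin.update_cons_zero] at h
  exact h

theorem e9_per2 {q : ℕ} {s : ℝ} {F : (Fin (q + 2) → ℂ) → ℂ} (hF : BO (q + 2) (St s) F) {a b : ℂ} {v : Fin q → ℂ}
    (ha : a ∈ St s) (hb : b ∈ St s) (hv : v ∈ PU q (St s)) :
    F (Fin.cons (a + 1) (Fin.cons (b + 1) v : Fin (q + 1) → ℂ)) = F (Fin.cons a (Fin.cons b v : Fin (q + 1) → ℂ)) := by
  have hb1 : b + 1 ∈ St s := by simpa using e9_St 1 hb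
  rw [e9_per1 hF ha (e9_cons_mem hb1 hv)]
  have h := hF.per (Fin.cons a (Fin.cons b v : Fin (q + 1) → ℂ)) (e9_cons_mem ha (e9_cons_mem hb hv)) (Fin.succ 0)
  rw [Fin.cons_succ, Fin.cons_zero, ← Fin.cons_update, Fin.update_cons_zero] at h
  exact h

theorem e9_shift {I : ℝ → ℂ} (hI : ∀ x, I (x + 1) = I x) (t : ℝ) :
    ∫ x in (0 : ℝ)..1, I (x + t) = ∫ x in (0 : ℝ)..1, I x := by
  rw [intervalIntegral.integral_comp_add_right, zero_add, add_comm 1 t]
  have h2 : Function.Periodic I 1 := hI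
  have h3 := h2.intervalIntegral_add_eq t 0
  rw [h3, zero_add]

theorem e9_BO {q : ℕ} {s : ℝ} {F : (Fin q → ℂ) → ℂ} (t : ℝ) (hF : BO q (St s) F) : BO q (St s) (shf t F) := by
  have hm : ∀ z ∈ PU q (St s), (fun i => z i + (t : ℂ)) ∈ PU q (St s) := fun z hz i => e9_St t (hz i)
  refine ⟨?_, ?_, ?_, ?_⟩
  · have hd : Differentiable ℂ (fun z : Fin q → ℂ => fun i => z i + (t : ℂ)) := by
      rw [differentiable_pi]
      intro i
      exact (differentiable_apply i).add_const _
    exact hF.hol.comp hd.differentiableOn hm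
  · intro z hz i
    have h := hF.per _ (hm z hz) i
    have e : (fun k => Function.update z i (z i + 1) k + (t : ℂ))
        = Function.update (fun k => z k + (t : ℂ)) i ((fun k => z k + (t : ℂ)) i + 1) := by
      funext k
      by_cases hk : k = i
      · subst hk
        rw [Function.update_self, Function.update_self]
        ring
      · rw [Function.update_of_ne hk, Function.update_of_ne hk]
    show F (fun k => Function.update z i (z i + 1) k + (t : ℂ)) = F (fun k => z k + (t : ℂ))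
    rw [e]
    exact h
  · intro z hz σ
    exact hF.alt _ (hm z hz) σ
  · obtain ⟨C, hC⟩ := hF.bdd
    exact ⟨C, fun z hz => hC _ (hm z hz)⟩

/-- translations -/
theorem st_E9 : ST_E9 := by
  intro q s t hs
  have hmem : ∀ {q : ℕ} {v : Fin q → ℂ}, v ∈ PU q (St s) → (fun i => v i + (t : ℂ)) ∈ PU q (St s) :=
    fun hv i => e9_St t (hv i)
  refine ⟨fun F hF => e9_BO t hF, ?_, ?_, ?_, ?_, ?_⟩
  · intro F _
    funext z
    unfold dd shf
    refine Finset.sum_congr rfl fun i _ => ?_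
    congr 1
    have e : (fun a : ℂ => F (fun k => (i.succ.insertNth a z : Fin (q + 1) → ℂ) k + (t : ℂ)))
        = fun a : ℂ => (fun b : ℂ => F (i.succ.insertNth b (fun k => z k + (t : ℂ)))) (a + t) := by
      funext a
      rw [e9_ins]
    rw [e]
    exact deriv_comp_add_const (fun b : ℂ => F (i.succ.insertNth b (fun k => z k + (t : ℂ)))) (t : ℂ) (z i)
  · intro F
    funext z
    rfl
  · intro F hF v hv
    unfold tc shf
    have hw := hmem hv
    have e : ∀ x : ℝ, F (fun k => (Fin.cons (x : ℂ) v : Fin (q + 1) → ℂ) k + (t : ℂ))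
        = (fun x : ℝ => F (Fin.cons (x : ℂ) (fun k => v k + (t : ℂ)))) (x + t) := by
      intro x
      rw [e9_cons]
      show _ = F (Fin.cons ((x + t : ℝ) : ℂ) _)
      rw [Complex.ofReal_add]
    simp only [e]
    refine e9_shift (I := fun x : ℝ => F (Fin.cons (x : ℂ) (fun k => v k + (t : ℂ)))) (fun x => ?_) t
    show F (Fin.cons ((x + 1 : ℝ) : ℂ) _) = _
    rw [Complex.ofReal_add, Complex.ofReal_one]
    exact e9_per1 hF (e9_real hs x) hw
  · intro F hF v hv
    have hw := hmem hv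
    unfold ec shf
    have e : ∀ x : ℝ, deriv (fun b : ℂ => F (fun k => (Fin.cons (x : ℂ) (Fin.cons b v : Fin (q + 1) → ℂ) :
          Fin (q + 2) → ℂ) k + (t : ℂ))) (x : ℂ)
        = (fun x : ℝ => deriv (fun b : ℂ => F (Fin.cons (x : ℂ) (Fin.cons b (fun k => v k + (t : ℂ)) :
          Fin (q + 1) → ℂ))) (x : ℂ)) (x + t) := by
      intro x
      show _ = deriv (fun b : ℂ => F (Fin.cons ((x + t : ℝ) : ℂ) (Fin.cons b (fun k => v k + (t : ℂ)) :
          Fin (q + 1) → ℂ))) ((x + t : ℝ) : ℂ)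
      rw [Complex.ofReal_add, ← deriv_comp_add_const]
      congr 1
      funext b
      rw [e9_cons, e9_cons]
    simp only [e]
    refine e9_shift (I := fun x : ℝ => deriv (fun b : ℂ => F (Fin.cons (x : ℂ) (Fin.cons b (fun k => v k + (t : ℂ)) :
          Fin (q + 1) → ℂ))) (x : ℂ)) (fun x => ?_) t
    show deriv (fun b : ℂ => F (Fin.cons ((x + 1 : ℝ) : ℂ) (Fin.cons b (fun k => v k + (t : ℂ)) :
          Fin (q + 1) → ℂ))) ((x + 1 : ℝ) : ℂ) = _
    rw [Complex.ofReal_add, Complex.ofReal_one, ← deriv_comp_add_const]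
    refine Filter.EventuallyEq.deriv_eq ?_
    filter_upwards [(isOpen_St s).mem_nhds (e9_real hs x)] with b hb
    exact e9_per2 hF (e9_real hs x) hb hw
  · intro F hF v hv
    have hw := hmem hv
    unfold gc shf
    have i2 : ∀ f : ℂ → ℂ, iteratedDeriv 2 f = deriv (deriv f) := by
      intro f
      rw [iteratedDeriv_succ, iteratedDeriv_one]
    have i3 : ∀ (f : ℂ → ℂ) (c x : ℂ), iteratedDeriv 2 (fun b => f (b + c)) x = iteratedDeriv 2 f (x + c) := by
      intro f c x
      rw [i2, i2]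
      have : deriv (fun b => f (b + c)) = fun b => deriv f (b + c) := by
        funext b
        exact deriv_comp_add_const _ _ _
      rw [this, deriv_comp_add_const]
    have e : ∀ x : ℝ, deriv (fun a : ℂ => iteratedDeriv 2 (fun b : ℂ => F (fun k => (Fin.cons a
          (Fin.cons b v : Fin (q + 1) → ℂ) : Fin (q + 2) → ℂ) k + (t : ℂ))) (x : ℂ)) (x : ℂ)
        = (fun x : ℝ => deriv (fun a : ℂ => iteratedDeriv 2 (fun b : ℂ => F (Fin.cons a
          (Fin.cons b (fun k => v k + (t : ℂ)) : Fin (q + 1) → ℂ))) (x : ℂ)) (x : ℂ)) (x + t) := by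
      intro x
      show _ = deriv (fun a : ℂ => iteratedDeriv 2 (fun b : ℂ => F (Fin.cons a
          (Fin.cons b (fun k => v k + (t : ℂ)) : Fin (q + 1) → ℂ))) ((x + t : ℝ) : ℂ)) ((x + t : ℝ) : ℂ)
      rw [Complex.ofReal_add, ← deriv_comp_add_const]
      congr 1
      funext a
      rw [← i3]
      congr 1
      funext b
      rw [e9_cons, e9_cons]
    simp only [e]
    refine e9_shift (I := fun x : ℝ => deriv (fun a : ℂ => iteratedDeriv 2 (fun b : ℂ => F (Fin.cons a
          (Fin.cons b (fun k => v k + (t : ℂ)) : Fin (q + 1) → ℂ))) (x : ℂ)) (x : ℂ)) (fun x => ?_) t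
    show deriv (fun a : ℂ => iteratedDeriv 2 (fun b : ℂ => F (Fin.cons a
          (Fin.cons b (fun k => v k + (t : ℂ)) : Fin (q + 1) → ℂ))) ((x + 1 : ℝ) : ℂ)) ((x + 1 : ℝ) : ℂ) = _
    rw [Complex.ofReal_add, Complex.ofReal_one, ← deriv_comp_add_const]
    refine Filter.EventuallyEq.deriv_eq ?_
    filter_upwards [(isOpen_St s).mem_nhds (e9_real hs x)] with a ha
    rw [← i3]
    refine Filter.EventuallyEq.iteratedDeriv_eq 2 ?_
    filter_upwards [(isOpen_St s).mem_nhds (e9_real hs x)] with b hb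
    exact e9_per2 hF ha hb hw

end Pool.Agent.Helper67.DO
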